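import Pool.Agent.H4.HC.NSCA
import Pool.Agent.H20.HH.NSM

/-!
# MP_347b49_nt: module NSC (harmonic sums with complex exponents)
-/

set_option autoImplicit false

open NumberField Complex Filter Topology MeasureTheory
open scoped ContDiff nonZeroDivisors

namespace Pool.Agent.H4.HC

open Pool.Agent.H33.HC Pool.Agent.H33.HH Pool.Agent.H28.RC Pool.Agent.H37.CV Pool.Agent.H11.HH
open Pool.Agent.H20.HH

variable {K : Type} [Field K] [NumberField K]

/-- partial summation, complex values -/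
theorem ns1c (h2 : T_NS1) (K : Type) [Field K] [NumberField K] [IQ K] (P : ℝ) (h h' : ℝ → ℂ)
    (hd : ∀ t, 0 < t → HasDerivAt h (h' t) t) (hc : ContinuousOn h' (Set.Ioi 0)) (x : ℝ)
    (hx : 1 ≤ x) :
    ∑ I ∈ (fin_le K P x).toFinset, h (nm I) =
      h x * (cn K P x : ℂ) - ∫ t in Set.Ioc 1 x, h' t * (cn K P t : ℂ) := by
  have hI : IntegrableOn (fun t => h' t * (cn K P t : ℂ)) (Set.Ioc 1 x) := by
    refine IntegrableOn.mono_set (t := Set.Icc 1 x) ?_ Set.Ioc_subset_Icc_self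
    refine IntegrableOn.continuousOn_mul (hc.mono fun t ht => lt_of_lt_of_le one_pos ht.1) ?_
      isCompact_Icc
    exact (((cn_mono K P).monotoneOn _).integrableOn_isCompact isCompact_Icc).ofReal
  have hre := h2 K P (fun t => (h t).re) (fun t => (h' t).re)
    (fun t ht => (Complex.reCLM.hasFDerivAt (x := h t)).comp_hasDerivAt t (hd t ht))
    (Complex.continuous_re.comp_continuousOn hc) x hx
  have him := h2 K P (fun t => (h t).im) (fun t => (h' t).im)
    (fun t ht => (Complex.imCLM.hasFDerivAt (x := h t)).comp_hasDerivAt t (hd t ht))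
    (Complex.continuous_im.comp_continuousOn hc) x hx
  rw [finsum_eq] at hre him
  apply Complex.ext
  · have e : (∫ t in Set.Ioc 1 x, h' t * (cn K P t : ℂ)).re =
        ∫ t in Set.Ioc 1 x, (h' t).re * cn K P t := by
      rw [← Complex.reCLM_apply, ← Complex.reCLM.integral_comp_comm hI]
      refine setIntegral_congr_fun measurableSet_Ioc fun t _ => ?_
      exact Complex.re_mul_ofReal _ _
    rw [Complex.re_sum, Complex.sub_re, Complex.re_mul_ofReal, e, ← hre]
  · have e : (∫ t in Set.Ioc 1 x, h' t * (cn K P t : ℂ)).im =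
        ∫ t in Set.Ioc 1 x, (h' t).im * cn K P t := by
      rw [← Complex.imCLM_apply, ← Complex.imCLM.integral_comp_comm hI]
      refine setIntegral_congr_fun measurableSet_Ioc fun t _ => ?_
      exact Complex.im_mul_ofReal _ _
    rw [Complex.im_sum, Complex.sub_im, Complex.im_mul_ofReal, e, ← him]

theorem sum_limC (P : ℝ) (g : Ideal (𝓞 K) → ℂ) (hg : Summable fun I : NI K => ‖g I.1‖) :
    Tendsto (fun x : ℝ => ∑ I ∈ (fin_le K P x).toFinset, g I) atTop (𝓝 (sumZ P g)) := by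
  classical
  have hs : Summable fun I : NI K => if Cp P I.1 then g I.1 else 0 := by
    refine Summable.of_norm_bounded hg fun I => ?_
    split_ifs
    · exact le_rfl
    · rw [norm_zero]
      exact norm_nonneg _
  have ht : Tendsto (fun x : ℝ => (fin_NI (K := K) x).toFinset) atTop atTop := by
    refine tendsto_atTop.2 fun u => ?_
    filter_upwards [eventually_ge_atTop (∑ I ∈ u, nm I.1)] with x hx
    intro I hI
    rw [Set.Finite.mem_toFinset]
    exact (Finset.single_le_sum (f := fun I : NI K => nm I.1) (fun J _ => nm_nonneg _) hI).trans hx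
  have h1 : Tendsto (fun x : ℝ => ∑ I ∈ (fin_NI (K := K) x).toFinset,
      if Cp P I.1 then g I.1 else 0) atTop (𝓝 (∑' I : NI K, if Cp P I.1 then g I.1 else 0)) :=
    hs.hasSum.comp ht
  have h2 : sumZ P g = ∑' I : NI K, if Cp P I.1 then g I.1 else 0 := by
    unfold sumZ
    refine tsum_congr fun I => ?_
    split_ifs <;> rfl
  rw [h2]
  refine h1.congr fun x => ?_
  rw [← Finset.sum_filter]
  refine Finset.sum_bij (fun I _ => I.1) ?_ ?_ ?_ ?_
  · intro I hI
    rw [Finset.mem_filter, Set.Finite.mem_toFinset] at hI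
    rw [Set.Finite.mem_toFinset]
    exact ⟨I.2, hI.2, hI.1⟩
  · intro I _ J _ hIJ
    exact Subtype.ext hIJ
  · intro I hI
    rw [Set.Finite.mem_toFinset] at hI
    refine ⟨⟨I, hI.1⟩, ?_, rfl⟩
    rw [Finset.mem_filter, Set.Finite.mem_toFinset]
    exact ⟨hI.2.2, hI.2.1⟩
  · intro I _
    rfl

theorem sum_pow2 (h1 : T_CNT) (h2 : T_NS1) (K : Type) [Field K] [NumberField K] [IQ K] :
    Summable fun I : NI K => nm I.1 ^ (-(19 / 16) : ℝ) := by
  classical
  obtain ⟨C, hC, hc⟩ := cn_le h1 K 0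
  refine summable_of_sum_le (c := 8 * C) (fun I => by
    have := nm_nonneg I.1
    positivity) fun u => ?_
  set x : ℝ := 1 + ∑ I ∈ u, nm I.1 with hx
  have hx1 : 1 ≤ x := by
    have : 0 ≤ ∑ I ∈ u, nm I.1 := Finset.sum_nonneg fun I _ => nm_nonneg _
    linarith
  have hx0 : 0 < x := by linarith
  have hle : ∑ I ∈ u, nm I.1 ^ (-(19 / 16) : ℝ) ≤
      ∑ I ∈ (fin_le K 0 x).toFinset, nm I ^ (-(19 / 16) : ℝ) := by
    have e : ∑ I ∈ u, nm I.1 ^ (-(19 / 16) : ℝ) =
        ∑ J ∈ u.image (fun I : NI K => I.1), nm J ^ (-(19 / 16) : ℝ) := by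
      rw [Finset.sum_image fun I _ J _ hIJ => Subtype.ext hIJ]
    rw [e]
    refine Finset.sum_le_sum_of_subset_of_nonneg ?_ fun J _ _ => by
      have := nm_nonneg J
      positivity
    intro J hJ
    rw [Finset.mem_image] at hJ
    obtain ⟨I, hI, rfl⟩ := hJ
    rw [Set.Finite.mem_toFinset]
    refine ⟨I.2, Cp_zero _, ?_⟩
    have := Finset.single_le_sum (f := fun I : NI K => nm I.1) (fun J _ => nm_nonneg _) hI
    linarith
  refine hle.trans ?_
  rw [← finsum_eq]
  have hns := h2 K 0 (fun t => t ^ (-(19 / 16) : ℝ)) (fun t => -(19 / 16) * t ^ (-(35 / 16) : ℝ))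
    (fun t ht => by
      have := Real.hasDerivAt_rpow_const (x := t) (p := (-(19 / 16) : ℝ)) (Or.inl ht.ne')
      have e : (-(19 / 16) : ℝ) - 1 = -(35 / 16) := by norm_num
      rw [e] at this
      exact this)
    (by
      refine ContinuousOn.mul continuousOn_const ?_
      exact ContinuousOn.rpow_const continuousOn_id fun t ht => Or.inl (ne_of_gt ht)) x hx1
  rw [hns]
  have hb : IntegrableOn (fun t : ℝ => 19 / 16 * C * t ^ (-(19 / 16) : ℝ)) (Set.Ioi 1) :=
    (integrableOn_Ioi_rpow_of_lt (by norm_num) one_pos).const_mul _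
  have ha : ∀ᵐ t ∂(volume.restrict (Set.Ioc 1 x)),
      ‖-(19 / 16) * t ^ (-(35 / 16) : ℝ) * cn K 0 t‖ ≤ 19 / 16 * C * t ^ (-(19 / 16) : ℝ) := by
    refine (ae_restrict_iff' measurableSet_Ioc).2 (Eventually.of_forall fun t ht => ?_)
    have ht0 : 0 < t := by linarith [ht.1]
    have e1 : t ^ (-(19 / 16) : ℝ) = t ^ (-(35 / 16) : ℝ) * t := by
      nth_rewrite 3 [← Real.rpow_one t]
      rw [← Real.rpow_add ht0]
      norm_num
    rw [norm_mul, norm_mul, Real.norm_eq_abs, Real.norm_eq_abs, Real.norm_eq_abs, abs_neg,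
      abs_of_pos (by positivity : (0 : ℝ) < 19 / 16), abs_of_pos (by positivity), e1]
    have h3 := hc t ht.1.le
    calc 19 / 16 * t ^ (-(35 / 16) : ℝ) * |cn K 0 t| ≤ 19 / 16 * t ^ (-(35 / 16) : ℝ) * (C * t) :=
          mul_le_mul_of_nonneg_left h3 (by positivity)
      _ = 19 / 16 * C * (t ^ (-(35 / 16) : ℝ) * t) := by ring
  have hI : |∫ t in Set.Ioc 1 x, -(19 / 16) * t ^ (-(35 / 16) : ℝ) * cn K 0 t| ≤ 19 / 3 * C := by
    calc |∫ t in Set.Ioc 1 x, -(19 / 16) * t ^ (-(35 / 16) : ℝ) * cn K 0 t| ≤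
        ∫ t in Set.Ioc 1 x, 19 / 16 * C * t ^ (-(19 / 16) : ℝ) := by
          rw [← Real.norm_eq_abs]
          exact norm_integral_le_of_norm_le (hb.mono_set Set.Ioc_subset_Ioi_self) ha
      _ ≤ ∫ t in Set.Ioi (1 : ℝ), 19 / 16 * C * t ^ (-(19 / 16) : ℝ) := by
          refine setIntegral_mono_set hb ?_ Set.Ioc_subset_Ioi_self.eventuallyLE
          refine (ae_restrict_iff' measurableSet_Ioi).2 (Eventually.of_forall fun t ht => ?_)
          have : 0 < t := lt_trans one_pos ht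
          simp only [Pi.zero_apply]
          positivity
      _ = 19 / 3 * C := by
          rw [integral_const_mul, integral_Ioi_rpow_of_lt (by norm_num) one_pos]
          norm_num
          ring
  have hJ : x ^ (-(19 / 16) : ℝ) * cn K 0 x ≤ C := by
    calc x ^ (-(19 / 16) : ℝ) * cn K 0 x ≤ x ^ (-(19 / 16) : ℝ) * (C * x) :=
          mul_le_mul_of_nonneg_left ((le_abs_self _).trans (hc x hx1)) (by positivity)
      _ = C * x ^ (-(3 / 16) : ℝ) := by
          have : x ^ (-(3 / 16) : ℝ) = x ^ (-(19 / 16) : ℝ) * x := by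
            nth_rewrite 3 [← Real.rpow_one x]
            rw [← Real.rpow_add hx0]
            norm_num
          rw [this]
          ring
      _ ≤ C * 1 := by
          refine mul_le_mul_of_nonneg_left ?_ hC
          exact Real.rpow_le_one_of_one_le_of_nonpos hx1 (by norm_num)
      _ = C := mul_one C
  have := (abs_le.1 hI).1
  linarith

theorem int5C (S : Set ℝ) (u v a b c : ℝ → ℂ) (r s : ℂ) (hu : IntegrableOn u S)
    (hv : IntegrableOn v S) (ha : IntegrableOn a S) (hb : IntegrableOn b S)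
    (hc : IntegrableOn c S) :
    IntegrableOn (fun t => r * u t - r * v t - s * a t - s * b t + c t) S ∧
    ∫ t in S, (r * u t - r * v t - s * a t - s * b t + c t) =
      r * (∫ t in S, u t) - r * (∫ t in S, v t) - s * (∫ t in S, a t) - s * (∫ t in S, b t) +
        ∫ t in S, c t := by
  have h1 : IntegrableOn (fun t => r * u t) S := hu.const_mul r
  have h2 : IntegrableOn (fun t => r * v t) S := hv.const_mul r
  have h3 : IntegrableOn (fun t => s * a t) S := ha.const_mul s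
  have h4 : IntegrableOn (fun t => s * b t) S := hb.const_mul s
  have h5 : IntegrableOn (fun t => r * u t - r * v t) S := h1.sub h2
  have h6 : IntegrableOn (fun t => r * u t - r * v t - s * a t) S := h5.sub h3
  have h7 : IntegrableOn (fun t => r * u t - r * v t - s * a t - s * b t) S := h6.sub h4
  refine ⟨h7.add hc, ?_⟩
  rw [integral_add h7 hc, integral_sub h6 h4, integral_sub h5 h3, integral_sub h1 h2,
    integral_const_mul, integral_const_mul, integral_const_mul, integral_const_mul]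

theorem ioc_limC (φ : ℝ → ℂ) (hφ : IntegrableOn φ (Set.Ioi 1)) :
    Tendsto (fun x => ∫ t in Set.Ioc 1 x, φ t) atTop (𝓝 (∫ t in Set.Ioi 1, φ t)) := by
  refine (intervalIntegral_tendsto_integral_Ioi 1 hφ tendsto_id).congr' ?_
  filter_upwards [eventually_ge_atTop 1] with x hx
  exact intervalIntegral.integral_of_le hx

theorem pf_NSC (h1 : Pool.Agent.H33.HH.T_CNT) (h2 : Pool.Agent.H33.HH.T_NS1) : T_NSC := by
  intro K _ _ _ P
  obtain ⟨C, hC, hcn⟩ := h1 K P
  obtain ⟨C1, hC1, hcn1⟩ := cn_le h1 K P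
  have hb : ∀ t, 1 ≤ t → |cn K P t - rk K P * t| ≤ C * t ^ (3 / 4 : ℝ) := hcn
  have hrk := rk_pos K P
  refine ⟨7 * rk K P + 46 * C, by positivity, fun f f' T A w hT hA h hw0 hw => ?_⟩
  have hT0 : 0 < T := by linarith
  have hsub : Set.Ioi (1 : ℝ) ⊆ Set.Ioi 0 := Set.Ioi_subset_Ioi zero_le_one
  have hw1 : (-1 - w : ℂ) ≠ 0 := by
    intro h0
    have : w = -1 := by linear_combination -h0
    rw [this, norm_neg, norm_one] at hw
    norm_num at hw
  have hsum : Summable fun I : NI K => ‖((nm I.1 : ℝ) : ℂ) ^ (-1 - w) * f (nm I.1)‖ := by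
    refine Summable.of_nonneg_of_le (fun _ => norm_nonneg _) (fun I => ?_)
      ((sum_pow2 h1 h2 K).mul_left ((1 + A) * T ^ (1 / 4 : ℝ)))
    have hn1 := one_le_nm I.1 I.2
    have hn : 0 < nm I.1 := lt_of_lt_of_le one_pos hn1
    rw [norm_mul]
    calc ‖((nm I.1 : ℝ) : ℂ) ^ (-1 - w)‖ * ‖f (nm I.1)‖ ≤ nm I.1 ^ (-(15 / 16) : ℝ) *
          ((1 + A) * T ^ (1 / 4 : ℝ) * nm I.1 ^ (-(1 / 4) : ℝ)) :=
          mul_le_mul (cp1_le w hw _ hn1) (slc_size h hT0 hA _ hn).1 (norm_nonneg _)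
            (by positivity)
      _ = (1 + A) * T ^ (1 / 4 : ℝ) *
          (nm I.1 ^ (-(15 / 16) : ℝ) * nm I.1 ^ (-(1 / 4) : ℝ)) := by ring
      _ = _ := by
          rw [← Real.rpow_add hn]
          norm_num
  refine ⟨hsum, ?_⟩
  set E : ℝ → ℝ := fun t => cn K P t - rk K P * t with hEd
  have hE : Measurable E := (cn_mono K P).measurable.sub (measurable_const.mul measurable_id)
  obtain ⟨⟨i1, b1⟩, i2, b2⟩ := slc_err h hT hA w hw E hE C hC hb
  have i3 : IntegrableOn (fun t : ℝ => (E t : ℂ) * (t : ℂ) ^ (-2 - w)) (Set.Ioi 1) := by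
    refine Integrable.mono' ((integrableOn_Ioi_rpow_of_lt (a := (-(19 / 16) : ℝ)) (by norm_num)
      one_pos).const_mul C) ?_ ?_
    · refine AEStronglyMeasurable.mul (Complex.measurable_ofReal.comp hE).aestronglyMeasurable
        (ContinuousOn.aestronglyMeasurable ?_ measurableSet_Ioi)
      exact (cp_cont _).mono hsub
    · refine (ae_restrict_iff' measurableSet_Ioi).2 (Eventually.of_forall fun t ht => ?_)
      have ht1 : (1 : ℝ) < t := ht
      have ht0 : 0 < t := by linarith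
      rw [norm_mul, Complex.norm_real]
      calc ‖E t‖ * ‖(t : ℂ) ^ (-2 - w)‖ ≤ (C * t ^ (3 / 4 : ℝ)) * t ^ (-(31 / 16) : ℝ) :=
            mul_le_mul (hb t ht1.le) (cp2_le w hw t ht1.le) (norm_nonneg _) (by positivity)
        _ = C * (t ^ (3 / 4 : ℝ) * t ^ (-(31 / 16) : ℝ)) := by ring
        _ = _ := by
            rw [← Real.rpow_add ht0]
            norm_num
  obtain ⟨i4, i5⟩ := slc_int h hT0 hA w hw
  obtain ⟨-, b3⟩ := slc_small h hT hA w hw
  have hmain := slc_main h hT hA w hw0 hw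
  set g : ℝ → ℂ := fun t => (t : ℂ) ^ (-1 - w) * f t with hg
  set g' : ℝ → ℂ := fun t => (-1 - w) * (t : ℂ) ^ (-2 - w) * f t + (t : ℂ) ^ (-1 - w) * f' t
    with hg'
  have hgd : ∀ t, 0 < t → HasDerivAt g (g' t) t := by
    intro t ht
    have e := (hasDerivAt_ofReal_cpow_const (x := t) ht.ne' hw1)
    have e1 : (-1 - w - 1 : ℂ) = -2 - w := by ring
    rw [e1] at e
    exact e.mul (h.der t ht)
  have hgc : ContinuousOn g' (Set.Ioi 0) :=
    ((continuousOn_const.mul (cp_cont _)).mul (slc_cont h)).add ((cp_cont _).mul h.con)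
  set u : ℝ → ℂ := fun t => -w * g t + (t : ℂ) ^ (-1 - w) * f' t * (t : ℂ) with hu
  have iu : IntegrableOn u (Set.Ioi 1) := (i4.const_mul (-w)).add i5
  have hgsize : ∀ t : ℝ, 1 ≤ t → ‖g t‖ * t ≤ (1 + A) * T ^ (1 / 4 : ℝ) * t ^ (-(3 / 16) : ℝ) := by
    intro t ht
    have ht0 : 0 < t := by linarith
    rw [hg]
    show ‖(t : ℂ) ^ (-1 - w) * f t‖ * t ≤ _
    rw [norm_mul]
    calc ‖(t : ℂ) ^ (-1 - w)‖ * ‖f t‖ * t ≤ t ^ (-(15 / 16) : ℝ) *
          ((1 + A) * T ^ (1 / 4 : ℝ) * t ^ (-(1 / 4) : ℝ)) * t := by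
          refine mul_le_mul_of_nonneg_right (mul_le_mul (cp1_le w hw t ht)
            (slc_size h hT0 hA t ht0).1 (norm_nonneg _) (by positivity)) ht0.le
      _ = (1 + A) * T ^ (1 / 4 : ℝ) *
          (t ^ (-(15 / 16) : ℝ) * t ^ (-(1 / 4) : ℝ) * t ^ (1 : ℝ)) := by
          rw [Real.rpow_one]
          ring
      _ = _ := by
          rw [← Real.rpow_add ht0, ← Real.rpow_add ht0]
          norm_num
  have hpow : Tendsto (fun x : ℝ => x ^ (-(3 / 16) : ℝ)) atTop (𝓝 0) :=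
    tendsto_rpow_neg_atTop (by norm_num)
  have hpow' : Tendsto (fun x : ℝ => (1 + A) * T ^ (1 / 4 : ℝ) * x ^ (-(3 / 16) : ℝ)) atTop
      (𝓝 0) := by
    simpa using hpow.const_mul ((1 + A) * T ^ (1 / 4 : ℝ))
  have hft : ∫ t in Set.Ioi (1 : ℝ), u t = -f 1 := by
    have hF : Tendsto (fun t : ℝ => g t * (t : ℂ)) atTop (𝓝 0) := by
      refine squeeze_zero_norm' ?_ hpow'
      filter_upwards [eventually_ge_atTop 1] with t ht
      rw [norm_mul, Complex.norm_real, Real.norm_eq_abs, abs_of_pos (by linarith)]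
      exact hgsize t ht
    have := integral_Ioi_of_hasDerivAt_of_tendsto' (a := 1) (f := fun t : ℝ => g t * (t : ℂ))
      (f' := u) (m := 0) (fun t ht => by
        have ht1 : (1 : ℝ) ≤ t := ht
        have ht0 : 0 < t := by linarith
        have e := (hgd t ht0).mul (Complex.ofRealCLM.hasDerivAt (x := t))
        have e1 : g' t * (Complex.ofRealCLM t) + g t * (Complex.ofRealCLM 1) = u t := by
          simp only [hg', hu, hg, Complex.ofRealCLM_apply, Complex.ofReal_one]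
          rw [cp_split w t ht0]
          ring
        rw [e1] at e
        exact e) iu hF
    rw [this, hg]
    simp
  have hΦ : ∀ t : ℝ, 1 < t → g' t * (cn K P t : ℂ) =
      (rk K P : ℂ) * u t - (rk K P : ℂ) * g t -
        (1 + w) * ((t : ℂ) ^ (-2 - w) * (f t - 1) * (E t : ℂ)) -
        (1 + w) * ((E t : ℂ) * (t : ℂ) ^ (-2 - w)) + (t : ℂ) ^ (-1 - w) * f' t * (E t : ℂ) := by
    intro t ht
    have ht0 : 0 < t := by linarith
    have e : (cn K P t : ℂ) = (rk K P : ℂ) * (t : ℂ) + (E t : ℂ) := by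
      rw [hEd]
      push_cast
      ring
    simp only [hg', hu, hg]
    rw [e, cp_split w t ht0]
    ring
  obtain ⟨iΦ, eΦ⟩ := int5C (Set.Ioi 1) u g _ _ _ (rk K P : ℂ) (1 + w) iu i4 i1 i3 i2
  have hfc : Tendsto (fun x => g x * (cn K P x : ℂ)) atTop (𝓝 0) := by
    refine squeeze_zero_norm' (a := fun x => C1 * ((1 + A) * T ^ (1 / 4 : ℝ) *
      x ^ (-(3 / 16) : ℝ))) ?_ ?_
    · filter_upwards [eventually_ge_atTop 1] with x hx
      rw [norm_mul, Complex.norm_real, Real.norm_eq_abs]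
      calc ‖g x‖ * |cn K P x| ≤ ‖g x‖ * (C1 * x) :=
            mul_le_mul_of_nonneg_left (hcn1 x hx) (norm_nonneg _)
        _ = C1 * (‖g x‖ * x) := by ring
        _ ≤ _ := mul_le_mul_of_nonneg_left (hgsize x hx) hC1
    · simpa using hpow'.const_mul C1
  have hlim := tendsto_nhds_unique (sum_limC P (fun n : Ideal (𝓞 K) => g (nm n)) hsum)
    ((hfc.sub (ioc_limC _ iΦ)).congr' (by
      filter_upwards [eventually_ge_atTop 1] with x hx
      rw [ns1c h2 K P g g' hgd hgc x hx]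
      congr 1
      refine setIntegral_congr_fun measurableSet_Ioc fun t ht => ?_
      exact (hΦ t ht.1).symm))
  rw [eΦ, hft, hmain] at hlim
  have hZ : Zc K P w = (rk K P : ℂ) * (1 + 1 / w) +
      (1 + w) * ∫ t in Set.Ioi (1 : ℝ), (E t : ℂ) * (t : ℂ) ^ (-2 - w) := rfl
  have hf1 := (h.n1 1 one_pos hT).1
  set a1 := ∫ t in Set.Ioi (1 : ℝ), (t : ℂ) ^ (-2 - w) * (f t - 1) * (E t : ℂ) with ha1
  set a2 := ∫ t in Set.Ioi (1 : ℝ), (t : ℂ) ^ (-1 - w) * f' t * (E t : ℂ) with ha2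
  set a3 := ∫ t in Set.Ioc (0 : ℝ) 1, (f t - 1) * (t : ℂ) ^ (-1 - w) with ha3
  have e : sumZ (K := K) P (fun n => ((nm n : ℝ) : ℂ) ^ (-1 - w) * f (nm n)) -
      (Zc K P w - (rk K P : ℂ) * (T : ℂ) ^ (-w) * (1 / w - Lw w (fun v => f (T * v)))) =
      (rk K P : ℂ) * (f 1 - 1) + -((rk K P : ℂ) * a3) + (1 + w) * a1 + -a2 := by
    have hl : sumZ (K := K) P (fun n => ((nm n : ℝ) : ℂ) ^ (-1 - w) * f (nm n)) =
      sumZ (K := K) P (fun n => g (nm n)) := rfl
    rw [hl, hlim, hZ]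
    field_simp
    ring
  rw [e]
  have hh : (1 / T) ^ (1 / 4 : ℝ) = T ^ (-(1 / 4) : ℝ) := by
    rw [one_div, ← Real.rpow_neg_one, ← Real.rpow_mul hT0.le]
    norm_num
  rw [hh] at hf1
  have hq : T ^ (-(1 / 4) : ℝ) ≤ T ^ (-(1 / 8) : ℝ) :=
    Real.rpow_le_rpow_of_exponent_le hT (by norm_num)
  have hp : 0 ≤ T ^ (-(1 / 8) : ℝ) := by positivity
  have hAq : A * T ^ (-(1 / 4) : ℝ) ≤ (1 + A) * T ^ (-(1 / 8) : ℝ) :=
    mul_le_mul (by linarith) hq (by positivity) (by positivity)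
  have c1 : ‖(rk K P : ℂ) * (f 1 - 1)‖ ≤ rk K P * ((1 + A) * T ^ (-(1 / 8) : ℝ)) := by
    rw [norm_mul, Complex.norm_real, Real.norm_eq_abs, abs_of_pos hrk]
    exact mul_le_mul_of_nonneg_left (hf1.trans hAq) hrk.le
  have c2 : ‖-((rk K P : ℂ) * a3)‖ ≤ rk K P * (16 / 3 * ((1 + A) * T ^ (-(1 / 8) : ℝ))) := by
    rw [norm_neg, norm_mul, Complex.norm_real, Real.norm_eq_abs, abs_of_pos hrk]
    refine mul_le_mul_of_nonneg_left (b3.trans ?_) hrk.le
    rw [mul_assoc]
    exact mul_le_mul_of_nonneg_left hAq (by norm_num)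
  have c3 : ‖(1 + w) * a1‖ ≤ 17 / 16 * (22 * (C * (1 + A)) * T ^ (-(1 / 8) : ℝ)) := by
    rw [norm_mul]
    refine mul_le_mul ?_ b1 (norm_nonneg _) (by norm_num)
    refine (norm_add_le _ _).trans ?_
    rw [norm_one]
    linarith
  have c4 : ‖-a2‖ ≤ 22 * (C * (1 + A)) * T ^ (-(1 / 8) : ℝ) := by
    rw [norm_neg]
    refine b2.trans (mul_le_mul_of_nonneg_right ?_ hp)
    refine mul_le_mul_of_nonneg_left ?_ (by norm_num)
    exact mul_le_mul_of_nonneg_left (by linarith) hC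
  refine (norm_add_le _ _).trans ?_
  have d1 := norm_add_le ((rk K P : ℂ) * (f 1 - 1) + -((rk K P : ℂ) * a3)) ((1 + w) * a1)
  have d2 := norm_add_le ((rk K P : ℂ) * (f 1 - 1)) (-((rk K P : ℂ) * a3))
  have hX : 0 ≤ C * ((1 + A) * T ^ (-(1 / 8) : ℝ)) := by positivity
  have hY : 0 ≤ rk K P * ((1 + A) * T ^ (-(1 / 8) : ℝ)) := by positivity
  have e5 : (7 * rk K P + 46 * C) * (1 + A) * T ^ (-(1 / 8) : ℝ) =
      7 * (rk K P * ((1 + A) * T ^ (-(1 / 8) : ℝ))) +
        46 * (C * ((1 + A) * T ^ (-(1 / 8) : ℝ))) := by ring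
  have e6 : 22 * (C * (1 + A)) * T ^ (-(1 / 8) : ℝ) =
      22 * (C * ((1 + A) * T ^ (-(1 / 8) : ℝ))) := by ring
  have e7 : rk K P * (16 / 3 * ((1 + A) * T ^ (-(1 / 8) : ℝ))) =
      16 / 3 * (rk K P * ((1 + A) * T ^ (-(1 / 8) : ℝ))) := by ring
  rw [e5]
  rw [e6] at c3 c4
  rw [e7] at c2
  linarith

end Pool.Agent.H4.HC
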