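import Pool.Agent.H33.HC.TA
import Pool.Agent.H33.HH.TC

/-!
# MP_347b49_nt: module NSC (harmonic sums with complex exponents), the analysis
-/

set_option autoImplicit false

open Complex Filter Topology MeasureTheory
open scoped ContDiff

namespace Pool.Agent.H4.HC

open Pool.Agent.H33.HC

/-! ### Powers -/

theorem cp1_le (w : ℂ) (hw : ‖w‖ ≤ 1 / 16) (t : ℝ) (ht : 1 ≤ t) :
    ‖(t : ℂ) ^ (-1 - w)‖ ≤ t ^ (-(15 / 16) : ℝ) := by
  have ht0 : 0 < t := by linarith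
  rw [Complex.norm_cpow_eq_rpow_re_of_pos ht0]
  refine Real.rpow_le_rpow_of_exponent_le ht ?_
  have := (abs_le.1 ((Complex.abs_re_le_norm w).trans hw)).1
  simp only [Complex.sub_re, Complex.neg_re, Complex.one_re]
  linarith

theorem cp2_le (w : ℂ) (hw : ‖w‖ ≤ 1 / 16) (t : ℝ) (ht : 1 ≤ t) :
    ‖(t : ℂ) ^ (-2 - w)‖ ≤ t ^ (-(31 / 16) : ℝ) := by
  have ht0 : 0 < t := by linarith
  rw [Complex.norm_cpow_eq_rpow_re_of_pos ht0]
  refine Real.rpow_le_rpow_of_exponent_le ht ?_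
  have := (abs_le.1 ((Complex.abs_re_le_norm w).trans hw)).1
  have h2 : (-2 : ℂ).re = -2 := by simp
  rw [Complex.sub_re, h2]
  linarith

theorem cps_le (w : ℂ) (hw : ‖w‖ ≤ 1 / 16) (t : ℝ) (ht0 : 0 < t) (ht : t ≤ 1) :
    ‖(t : ℂ) ^ (-1 - w)‖ ≤ t ^ (-(17 / 16) : ℝ) := by
  rw [Complex.norm_cpow_eq_rpow_re_of_pos ht0]
  refine Real.rpow_le_rpow_of_exponent_ge ht0 ht ?_
  have := (abs_le.1 ((Complex.abs_re_le_norm w).trans hw)).2
  simp only [Complex.sub_re, Complex.neg_re, Complex.one_re]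
  linarith

theorem cp_cont (z : ℂ) : ContinuousOn (fun t : ℝ => (t : ℂ) ^ z) (Set.Ioi 0) := fun t ht =>
  (Complex.continuousAt_ofReal_cpow_const t z (Or.inr (ne_of_gt ht))).continuousWithinAt

theorem cp_split (w : ℂ) (t : ℝ) (ht : 0 < t) : (t : ℂ) ^ (-1 - w) = (t : ℂ) ^ (-2 - w) * t := by
  have ht' : (t : ℂ) ≠ 0 := by exact_mod_cast ht.ne'
  have : (-1 - w : ℂ) = (-2 - w) + 1 := by ring
  rw [this, Complex.cpow_add _ _ ht', Complex.cpow_one]

/-- integrals over `(1, ∞)` of functions with a transition at `T` -/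
theorem int_bdC (φ : ℝ → ℂ) (c T : ℝ) (hc : 0 ≤ c) (hT : 1 ≤ T)
    (hm : AEStronglyMeasurable φ (volume.restrict (Set.Ioi 1)))
    (h1 : ∀ t, 1 < t → t ≤ T → ‖φ t‖ ≤ c * (t ^ (-(19 / 16) : ℝ) * (t / T) ^ (1 / 4 : ℝ)))
    (h2 : ∀ t, T < t → ‖φ t‖ ≤ c * t ^ (-(19 / 16) : ℝ)) :
    IntegrableOn φ (Set.Ioi 1) ∧
      ‖∫ t in Set.Ioi (1 : ℝ), φ t‖ ≤ 22 * c * T ^ (-(1 / 8) : ℝ) := by
  have hT0 : 0 < T := by linarith
  have hU : Set.Ioi (1 : ℝ) = Set.Ioc 1 T ∪ Set.Ioi T := (Set.Ioc_union_Ioi_eq_Ioi hT).symm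
  have hd : Disjoint (Set.Ioc 1 T) (Set.Ioi T) := by
    rw [Set.disjoint_left]
    intro t h h'
    exact absurd h.2 (not_le.2 h')
  have e1 : ∀ t, 0 < t → c * (t ^ (-(19 / 16) : ℝ) * (t / T) ^ (1 / 4 : ℝ)) =
      (c * T ^ (-(1 / 4) : ℝ)) * t ^ (-(15 / 16) : ℝ) := by
    intro t ht
    rw [Real.div_rpow ht.le hT0.le, Real.rpow_neg hT0.le]
    have : t ^ (-(15 / 16) : ℝ) = t ^ (-(19 / 16) : ℝ) * t ^ (1 / 4 : ℝ) := by
      rw [← Real.rpow_add ht]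
      norm_num
    rw [this]
    ring
  have hi1 : IntegrableOn (fun t : ℝ => (c * T ^ (-(1 / 4) : ℝ)) * t ^ (-(15 / 16) : ℝ))
      (Set.Ioc 1 T) := by
    refine IntegrableOn.mono_set (t := Set.Icc 1 T) ?_ Set.Ioc_subset_Icc_self
    refine ContinuousOn.integrableOn_Icc (ContinuousOn.mul continuousOn_const ?_)
    refine ContinuousOn.rpow_const continuousOn_id fun t ht => Or.inl ?_
    have := ht.1
    intro h
    have h' : t = 0 := h
    linarith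
  have hi2 : IntegrableOn (fun t : ℝ => c * t ^ (-(19 / 16) : ℝ)) (Set.Ioi T) :=
    (integrableOn_Ioi_rpow_of_lt (by norm_num) hT0).const_mul c
  have ha1 : ∀ᵐ t ∂(volume.restrict (Set.Ioc 1 T)), ‖φ t‖ ≤
      (c * T ^ (-(1 / 4) : ℝ)) * t ^ (-(15 / 16) : ℝ) := by
    refine (ae_restrict_iff' measurableSet_Ioc).2 (Eventually.of_forall fun t ht => ?_)
    rw [← e1 t (by linarith [ht.1])]
    exact h1 t ht.1 ht.2
  have ha2 : ∀ᵐ t ∂(volume.restrict (Set.Ioi T)), ‖φ t‖ ≤ c * t ^ (-(19 / 16) : ℝ) :=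
    (ae_restrict_iff' measurableSet_Ioi).2 (Eventually.of_forall fun t ht => h2 t ht)
  have hm1 : AEStronglyMeasurable φ (volume.restrict (Set.Ioc 1 T)) :=
    hm.mono_measure (Measure.restrict_mono Set.Ioc_subset_Ioi_self le_rfl)
  have hm2 : AEStronglyMeasurable φ (volume.restrict (Set.Ioi T)) :=
    hm.mono_measure (Measure.restrict_mono (Set.Ioi_subset_Ioi hT) le_rfl)
  have hI1 : IntegrableOn φ (Set.Ioc 1 T) := Integrable.mono' hi1 hm1 ha1
  have hI2 : IntegrableOn φ (Set.Ioi T) := Integrable.mono' hi2 hm2 ha2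
  refine ⟨by rw [hU]; exact hI1.union hI2, ?_⟩
  rw [hU, setIntegral_union hd measurableSet_Ioi hI1 hI2]
  have hb1 : ‖∫ t in Set.Ioc 1 T, φ t‖ ≤ 16 * c * T ^ (-(3 / 16) : ℝ) := by
    calc ‖∫ t in Set.Ioc 1 T, φ t‖ ≤
        ∫ t in Set.Ioc 1 T, (c * T ^ (-(1 / 4) : ℝ)) * t ^ (-(15 / 16) : ℝ) :=
          norm_integral_le_of_norm_le hi1 ha1
      _ = (c * T ^ (-(1 / 4) : ℝ)) * ((T ^ (1 / 16 : ℝ) - 1) / (1 / 16)) := by
          rw [integral_const_mul, ← intervalIntegral.integral_of_le hT,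
            integral_rpow (Or.inl (by norm_num))]
          norm_num
      _ ≤ (c * T ^ (-(1 / 4) : ℝ)) * (16 * T ^ (1 / 16 : ℝ)) := by
          refine mul_le_mul_of_nonneg_left ?_ (by positivity)
          rw [div_le_iff₀ (by norm_num)]
          linarith
      _ = 16 * c * T ^ (-(3 / 16) : ℝ) := by
          have : T ^ (-(3 / 16) : ℝ) = T ^ (-(1 / 4) : ℝ) * T ^ (1 / 16 : ℝ) := by
            rw [← Real.rpow_add hT0]
            norm_num
          rw [this]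
          ring
  have hb2 : ‖∫ t in Set.Ioi T, φ t‖ ≤ 16 / 3 * c * T ^ (-(3 / 16) : ℝ) := by
    calc ‖∫ t in Set.Ioi T, φ t‖ ≤ ∫ t in Set.Ioi T, c * t ^ (-(19 / 16) : ℝ) :=
          norm_integral_le_of_norm_le hi2 ha2
      _ = 16 / 3 * c * T ^ (-(3 / 16) : ℝ) := by
          rw [integral_const_mul, integral_Ioi_rpow_of_lt (by norm_num) hT0]
          norm_num
          ring
  have hb3 : T ^ (-(3 / 16) : ℝ) ≤ T ^ (-(1 / 8) : ℝ) :=
    Real.rpow_le_rpow_of_exponent_le hT (by norm_num)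
  have hb4 : c * T ^ (-(3 / 16) : ℝ) ≤ c * T ^ (-(1 / 8) : ℝ) := mul_le_mul_of_nonneg_left hb3 hc
  have hb5 : 0 ≤ c * T ^ (-(1 / 8) : ℝ) := by positivity
  refine (norm_add_le _ _).trans ?_
  linarith

section SlC

variable {f f' : ℝ → ℂ} {T A : ℝ}

theorem slc_cont (h : SlC T A f f') : ContinuousOn f (Set.Ioi 0) := fun t ht =>
  (h.der t ht).continuousAt.continuousWithinAt

/-- the difference to `1` -/
theorem slc_sub_one (h : SlC T A f f') (hT : 0 < T) (hA : 0 ≤ A) (t : ℝ) (ht : T < t) :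
    ‖f t - 1‖ ≤ 1 + A := by
  have h2 := (h.n2 t ht.le).1
  have h3 : A * (t / T) ^ (-(1 / 4) : ℝ) ≤ A * 1 := by
    refine mul_le_mul_of_nonneg_left ?_ hA
    exact Real.rpow_le_one_of_one_le_of_nonpos ((one_le_div hT).2 ht.le) (by norm_num)
  have h4 : ‖f t - 1‖ ≤ ‖f t‖ + ‖(1 : ℂ)‖ := norm_sub_le _ _
  rw [norm_one] at h4
  linarith

theorem slc_der_le (h : SlC T A f f') (hT : 0 < T) (hA : 0 ≤ A) (t : ℝ) (ht : T < t) :
    ‖f' t‖ ≤ A / t := by
  have ht0 : 0 < t := hT.trans ht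
  refine (h.n2 t ht.le).2.trans ?_
  have : (t / T) ^ (-(1 / 4) : ℝ) ≤ 1 :=
    Real.rpow_le_one_of_one_le_of_nonpos ((one_le_div hT).2 ht.le) (by norm_num)
  calc A / t * (t / T) ^ (-(1 / 4) : ℝ) ≤ A / t * 1 :=
        mul_le_mul_of_nonneg_left this (by positivity)
    _ = A / t := mul_one _

/-- the size -/
theorem slc_size (h : SlC T A f f') (hT : 0 < T) (hA : 0 ≤ A) (t : ℝ) (ht : 0 < t) :
    ‖f t‖ ≤ (1 + A) * T ^ (1 / 4 : ℝ) * t ^ (-(1 / 4) : ℝ) ∧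
    ‖f' t‖ ≤ A / t * (T ^ (1 / 4 : ℝ) * t ^ (-(1 / 4) : ℝ)) := by
  have e : T ^ (1 / 4 : ℝ) * t ^ (-(1 / 4) : ℝ) = (t / T) ^ (-(1 / 4) : ℝ) := by
    rw [Real.div_rpow ht.le hT.le, Real.rpow_neg hT.le]
    field_simp
  rw [mul_assoc, e]
  rcases le_total t T with h1 | h1
  · have h2 : 1 ≤ (t / T) ^ (-(1 / 4) : ℝ) :=
      Real.one_le_rpow_of_pos_of_le_one_of_nonpos (by positivity) ((div_le_one hT).2 h1)
        (by norm_num)
    have h3 : (t / T) ^ (1 / 4 : ℝ) ≤ 1 :=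
      Real.rpow_le_one (by positivity) ((div_le_one hT).2 h1) (by norm_num)
    have h4 := (h.n1 t ht h1).1
    have h5 := (h.n1 t ht h1).2
    have h6 : ‖f t‖ ≤ ‖f t - 1‖ + ‖(1 : ℂ)‖ := by
      have := norm_add_le (f t - 1) 1
      rwa [sub_add_cancel] at this
    rw [norm_one] at h6
    constructor
    · have h7 : A * (t / T) ^ (1 / 4 : ℝ) ≤ A * 1 := mul_le_mul_of_nonneg_left h3 hA
      have h8 : (1 + A) * 1 ≤ (1 + A) * (t / T) ^ (-(1 / 4) : ℝ) :=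
        mul_le_mul_of_nonneg_left h2 (by positivity)
      linarith
    · refine h5.trans (mul_le_mul_of_nonneg_left (h3.trans h2) (by positivity))
  · obtain ⟨h4, h5⟩ := h.n2 t h1
    have : 0 ≤ (t / T) ^ (-(1 / 4) : ℝ) := by positivity
    refine ⟨h4.trans (mul_le_mul_of_nonneg_right (by linarith) this), h5⟩

theorem slc_err (h : SlC T A f f') (hT : 1 ≤ T) (hA : 0 ≤ A) (w : ℂ) (hw : ‖w‖ ≤ 1 / 16)
    (E : ℝ → ℝ) (hE : Measurable E) (C : ℝ) (hC : 0 ≤ C)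
    (hb : ∀ t, 1 ≤ t → |E t| ≤ C * t ^ (3 / 4 : ℝ)) :
    (IntegrableOn (fun t : ℝ => (t : ℂ) ^ (-2 - w) * (f t - 1) * (E t : ℂ)) (Set.Ioi 1) ∧
      ‖∫ t in Set.Ioi (1 : ℝ), (t : ℂ) ^ (-2 - w) * (f t - 1) * (E t : ℂ)‖ ≤
        22 * (C * (1 + A)) * T ^ (-(1 / 8) : ℝ)) ∧
    (IntegrableOn (fun t : ℝ => (t : ℂ) ^ (-1 - w) * f' t * (E t : ℂ)) (Set.Ioi 1) ∧
      ‖∫ t in Set.Ioi (1 : ℝ), (t : ℂ) ^ (-1 - w) * f' t * (E t : ℂ)‖ ≤
        22 * (C * A) * T ^ (-(1 / 8) : ℝ)) := by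
  have hT0 : 0 < T := by linarith
  have hsub : Set.Ioi (1 : ℝ) ⊆ Set.Ioi 0 := Set.Ioi_subset_Ioi zero_le_one
  have hEm : AEStronglyMeasurable (fun t => (E t : ℂ)) (volume.restrict (Set.Ioi (1 : ℝ))) :=
    (Complex.measurable_ofReal.comp hE).aestronglyMeasurable
  have hnE : ∀ t, 1 ≤ t → ‖(E t : ℂ)‖ ≤ C * t ^ (3 / 4 : ℝ) := fun t ht => by
    rw [Complex.norm_real]
    exact hb t ht
  have k1 : ∀ t : ℝ, 0 < t → t ^ (-(31 / 16) : ℝ) * t ^ (3 / 4 : ℝ) = t ^ (-(19 / 16) : ℝ) :=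
    fun t ht => by
      rw [← Real.rpow_add ht]
      norm_num
  have k2 : ∀ t : ℝ, 0 < t → t ^ (-(15 / 16) : ℝ) * (t⁻¹ * t ^ (3 / 4 : ℝ)) =
      t ^ (-(19 / 16) : ℝ) := fun t ht => by
    rw [← Real.rpow_neg_one, ← Real.rpow_add ht, ← Real.rpow_add ht]
    norm_num
  constructor
  · have hkey : ∀ t, 1 < t → ∀ b : ℝ, 0 ≤ b → ‖f t - 1‖ ≤ (1 + A) * b →
        ‖(t : ℂ) ^ (-2 - w) * (f t - 1) * (E t : ℂ)‖ ≤
          C * (1 + A) * (t ^ (-(19 / 16) : ℝ) * b) := by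
      intro t ht b hb0 hf
      have ht0 : 0 < t := by linarith
      rw [norm_mul, norm_mul]
      calc ‖(t : ℂ) ^ (-2 - w)‖ * ‖f t - 1‖ * ‖(E t : ℂ)‖ ≤
          t ^ (-(31 / 16) : ℝ) * ((1 + A) * b) * (C * t ^ (3 / 4 : ℝ)) := by
            refine mul_le_mul (mul_le_mul (cp2_le w hw t ht.le) hf (norm_nonneg _)
              (by positivity)) (hnE t ht.le) (norm_nonneg _) (by positivity)
        _ = C * (1 + A) * ((t ^ (-(31 / 16) : ℝ) * t ^ (3 / 4 : ℝ)) * b) := by ring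
        _ = C * (1 + A) * (t ^ (-(19 / 16) : ℝ) * b) := by rw [k1 t ht0]
    refine int_bdC _ (C * (1 + A)) T (by positivity) hT ?_ ?_ ?_
    · refine AEStronglyMeasurable.mul (ContinuousOn.aestronglyMeasurable ?_ measurableSet_Ioi) hEm
      exact ((cp_cont _).mul ((slc_cont h).sub continuousOn_const)).mono hsub
    · intro t ht htT
      have ht0 : 0 < t := by linarith
      refine hkey t ht _ (by positivity) ?_
      refine (h.n1 t ht0 htT).1.trans (mul_le_mul_of_nonneg_right (by linarith) (by positivity))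
    · intro t ht
      have := hkey t (by linarith) 1 zero_le_one (by
        rw [mul_one]
        exact slc_sub_one h hT0 hA t ht)
      rwa [mul_one] at this
  · have hkey : ∀ t, 1 < t → ∀ b : ℝ, 0 ≤ b → ‖f' t‖ ≤ A / t * b →
        ‖(t : ℂ) ^ (-1 - w) * f' t * (E t : ℂ)‖ ≤
          C * A * (t ^ (-(19 / 16) : ℝ) * b) := by
      intro t ht b hb0 hf
      have ht0 : 0 < t := by linarith
      rw [norm_mul, norm_mul]
      calc ‖(t : ℂ) ^ (-1 - w)‖ * ‖f' t‖ * ‖(E t : ℂ)‖ ≤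
          t ^ (-(15 / 16) : ℝ) * (A / t * b) * (C * t ^ (3 / 4 : ℝ)) := by
            refine mul_le_mul (mul_le_mul (cp1_le w hw t ht.le) hf (norm_nonneg _)
              (by positivity)) (hnE t ht.le) (norm_nonneg _) (by positivity)
        _ = C * A * ((t ^ (-(15 / 16) : ℝ) * (t⁻¹ * t ^ (3 / 4 : ℝ))) * b) := by ring
        _ = C * A * (t ^ (-(19 / 16) : ℝ) * b) := by rw [k2 t ht0]
    refine int_bdC _ (C * A) T (by positivity) hT ?_ ?_ ?_
    · refine AEStronglyMeasurable.mul (ContinuousOn.aestronglyMeasurable ?_ measurableSet_Ioi) hEm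
      exact ((cp_cont _).mul h.con).mono hsub
    · intro t ht htT
      have ht0 : 0 < t := by linarith
      exact hkey t ht _ (by positivity) (h.n1 t ht0 htT).2
    · intro t ht
      have := hkey t (by linarith) 1 zero_le_one (by
        rw [mul_one]
        exact slc_der_le h hT0 hA t ht)
      rwa [mul_one] at this

/-- integrability over `(1, ∞)` -/
theorem slc_int (h : SlC T A f f') (hT : 0 < T) (hA : 0 ≤ A) (w : ℂ) (hw : ‖w‖ ≤ 1 / 16) :
    IntegrableOn (fun t : ℝ => (t : ℂ) ^ (-1 - w) * f t) (Set.Ioi 1) ∧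
    IntegrableOn (fun t : ℝ => (t : ℂ) ^ (-1 - w) * f' t * (t : ℂ)) (Set.Ioi 1) := by
  have hsub : Set.Ioi (1 : ℝ) ⊆ Set.Ioi 0 := Set.Ioi_subset_Ioi zero_le_one
  have k : ∀ t : ℝ, 0 < t → t ^ (-(15 / 16) : ℝ) * t ^ (-(1 / 4) : ℝ) = t ^ (-(19 / 16) : ℝ) :=
    fun t ht => by
      rw [← Real.rpow_add ht]
      norm_num
  have hi : ∀ c : ℝ, IntegrableOn (fun t : ℝ => c * t ^ (-(19 / 16) : ℝ)) (Set.Ioi 1) :=
    fun c => (integrableOn_Ioi_rpow_of_lt (by norm_num) one_pos).const_mul c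
  constructor
  · refine Integrable.mono' (hi ((1 + A) * T ^ (1 / 4 : ℝ))) ?_ ?_
    · exact ContinuousOn.aestronglyMeasurable (((cp_cont _).mul (slc_cont h)).mono hsub)
        measurableSet_Ioi
    · refine (ae_restrict_iff' measurableSet_Ioi).2 (Eventually.of_forall fun t ht => ?_)
      have ht1 : (1 : ℝ) < t := ht
      have ht0 : 0 < t := by linarith
      rw [norm_mul]
      calc ‖(t : ℂ) ^ (-1 - w)‖ * ‖f t‖ ≤
          t ^ (-(15 / 16) : ℝ) * ((1 + A) * T ^ (1 / 4 : ℝ) * t ^ (-(1 / 4) : ℝ)) :=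
            mul_le_mul (cp1_le w hw t ht1.le) (slc_size h hT hA t ht0).1 (norm_nonneg _)
              (by positivity)
        _ = (1 + A) * T ^ (1 / 4 : ℝ) * (t ^ (-(15 / 16) : ℝ) * t ^ (-(1 / 4) : ℝ)) := by ring
        _ = _ := by rw [k t ht0]
  · refine Integrable.mono' (hi (A * T ^ (1 / 4 : ℝ))) ?_ ?_
    · refine ContinuousOn.aestronglyMeasurable ?_ measurableSet_Ioi
      exact (((cp_cont _).mul h.con).mul Complex.continuous_ofReal.continuousOn).mono hsub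
    · refine (ae_restrict_iff' measurableSet_Ioi).2 (Eventually.of_forall fun t ht => ?_)
      have ht1 : (1 : ℝ) < t := ht
      have ht0 : 0 < t := by linarith
      rw [norm_mul, norm_mul, Complex.norm_real, Real.norm_eq_abs, abs_of_pos ht0]
      calc ‖(t : ℂ) ^ (-1 - w)‖ * ‖f' t‖ * t ≤
          t ^ (-(15 / 16) : ℝ) * (A / t * (T ^ (1 / 4 : ℝ) * t ^ (-(1 / 4) : ℝ))) * t := by
            refine mul_le_mul_of_nonneg_right (mul_le_mul (cp1_le w hw t ht1.le)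
              (slc_size h hT hA t ht0).2 (norm_nonneg _) (by positivity)) ht0.le
        _ = A * T ^ (1 / 4 : ℝ) * (t ^ (-(15 / 16) : ℝ) * t ^ (-(1 / 4) : ℝ)) := by
            field_simp
        _ = _ := by rw [k t ht0]

/-- the error term near `0` -/
theorem slc_small (h : SlC T A f f') (hT : 1 ≤ T) (hA : 0 ≤ A) (w : ℂ) (hw : ‖w‖ ≤ 1 / 16) :
    IntegrableOn (fun t : ℝ => (f t - 1) * (t : ℂ) ^ (-1 - w)) (Set.Ioc 0 1) ∧
    ‖∫ t in Set.Ioc (0 : ℝ) 1, (f t - 1) * (t : ℂ) ^ (-1 - w)‖ ≤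
      16 / 3 * A * T ^ (-(1 / 4) : ℝ) := by
  have hT0 : 0 < T := by linarith
  have hi : IntegrableOn (fun t : ℝ => A * T ^ (-(1 / 4) : ℝ) * t ^ (-(13 / 16) : ℝ))
      (Set.Ioc 0 1) := by
    refine Integrable.const_mul ?_ _
    have := (intervalIntegral.intervalIntegrable_rpow' (a := 0) (b := 1)
      (r := (-(13 / 16) : ℝ)) (by norm_num))
    rwa [intervalIntegrable_iff_integrableOn_Ioc_of_le zero_le_one] at this
  have ha : ∀ᵐ t ∂(volume.restrict (Set.Ioc (0 : ℝ) 1)),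
      ‖(f t - 1) * (t : ℂ) ^ (-1 - w)‖ ≤ A * T ^ (-(1 / 4) : ℝ) * t ^ (-(13 / 16) : ℝ) := by
    refine (ae_restrict_iff' measurableSet_Ioc).2 (Eventually.of_forall fun t ht => ?_)
    have ht0 : 0 < t := ht.1
    rw [norm_mul]
    calc ‖f t - 1‖ * ‖(t : ℂ) ^ (-1 - w)‖ ≤
        (A * (t / T) ^ (1 / 4 : ℝ)) * t ^ (-(17 / 16) : ℝ) :=
          mul_le_mul (h.n1 t ht0 (ht.2.trans hT)).1 (cps_le w hw t ht0 ht.2) (norm_nonneg _)
            (by positivity)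
      _ = A * T ^ (-(1 / 4) : ℝ) * (t ^ (1 / 4 : ℝ) * t ^ (-(17 / 16) : ℝ)) := by
          rw [Real.div_rpow ht0.le hT0.le, Real.rpow_neg hT0.le]
          ring
      _ = _ := by
          rw [← Real.rpow_add ht0]
          norm_num
  have hm : AEStronglyMeasurable (fun t : ℝ => (f t - 1) * (t : ℂ) ^ (-1 - w))
      (volume.restrict (Set.Ioc 0 1)) := by
    refine ContinuousOn.aestronglyMeasurable ?_ measurableSet_Ioc
    exact (((slc_cont h).sub continuousOn_const).mul (cp_cont _)).mono Set.Ioc_subset_Ioi_self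
  refine ⟨Integrable.mono' hi hm ha, ?_⟩
  refine (norm_integral_le_of_norm_le hi ha).trans (le_of_eq ?_)
  rw [integral_const_mul, ← intervalIntegral.integral_of_le zero_le_one,
    integral_rpow (Or.inl (by norm_num))]
  norm_num
  ring

theorem slc_mid (h : SlC T A f f') (w : ℂ) :
    IntegrableOn (fun t : ℝ => (f t - 1) * (t : ℂ) ^ (-1 - w)) (Set.Ioc 1 T) ∧
    IntegrableOn (fun t : ℝ => (t : ℂ) ^ (-1 - w)) (Set.Ioc 1 T) := by
  have hsub : Set.Icc (1 : ℝ) T ⊆ Set.Ioi 0 := fun t ht => lt_of_lt_of_le one_pos ht.1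
  constructor
  · refine IntegrableOn.mono_set (t := Set.Icc 1 T) ?_ Set.Ioc_subset_Icc_self
    refine ContinuousOn.integrableOn_Icc ?_
    exact (((slc_cont h).sub continuousOn_const).mul (cp_cont _)).mono hsub
  · refine IntegrableOn.mono_set (t := Set.Icc 1 T) ?_ Set.Ioc_subset_Icc_self
    exact ContinuousOn.integrableOn_Icc ((cp_cont _).mono hsub)

/-- the rescaled transform -/
theorem slc_Lw (T : ℝ) (hT : 0 < T) (f : ℝ → ℂ) (w : ℂ) :
    (T : ℂ) ^ (-w) * Lw w (fun v => f (T * v)) =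
      (∫ t in Set.Ioc (0 : ℝ) T, (f t - 1) * (t : ℂ) ^ (-1 - w)) +
        ∫ t in Set.Ioi T, f t * (t : ℂ) ^ (-1 - w) := by
  have hT' : (T : ℂ) ≠ 0 := by exact_mod_cast hT.ne'
  have hk : ∀ v : ℝ, 0 < v → (v : ℂ) ^ (-1 - w) =
      (T : ℂ) * (T : ℂ) ^ w * ((T * v : ℝ) : ℂ) ^ (-1 - w) := by
    intro v hv
    rw [Complex.ofReal_mul, Complex.mul_cpow_ofReal_nonneg hT.le hv.le]
    have : (T : ℂ) * (T : ℂ) ^ w * (T : ℂ) ^ (-1 - w) = 1 := by
      nth_rewrite 1 [← Complex.cpow_one (T : ℂ)]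
      rw [← Complex.cpow_add _ _ hT', ← Complex.cpow_add _ _ hT']
      have e : (1 + w + (-1 - w) : ℂ) = 0 := by ring
      rw [e, Complex.cpow_zero]
    rw [← mul_assoc, this, one_mul]
  have hc : (T : ℂ) ^ (-w) * (T : ℂ) ^ w = 1 := by
    rw [← Complex.cpow_add _ _ hT', neg_add_cancel, Complex.cpow_zero]
  have h1 : (∫ v in Set.Ioc (0 : ℝ) 1, (f (T * v) - 1) * (v : ℂ) ^ (-1 - w)) =
      (T : ℂ) ^ w * ∫ t in Set.Ioc (0 : ℝ) T, (f t - 1) * (t : ℂ) ^ (-1 - w) := by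
    have e1 : (∫ v in Set.Ioc (0 : ℝ) 1, (f (T * v) - 1) * (v : ℂ) ^ (-1 - w)) =
        ∫ v in Set.Ioc (0 : ℝ) 1, (T : ℂ) * (T : ℂ) ^ w *
          ((f (T * v) - 1) * ((T * v : ℝ) : ℂ) ^ (-1 - w)) := by
      refine setIntegral_congr_fun measurableSet_Ioc fun v hv => ?_
      show _ = (T : ℂ) * (T : ℂ) ^ w * ((f (T * v) - 1) * ((T * v : ℝ) : ℂ) ^ (-1 - w))
      rw [hk v hv.1]
      ring
    have e2 := intervalIntegral.integral_comp_mul_left (a := 0) (b := 1)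
      (fun t : ℝ => (f t - 1) * (t : ℂ) ^ (-1 - w)) hT.ne'
    rw [e1, integral_const_mul, ← intervalIntegral.integral_of_le zero_le_one, e2, mul_zero,
      mul_one, intervalIntegral.integral_of_le hT.le, Complex.real_smul, Complex.ofReal_inv]
    field_simp
  have h2 : (∫ v in Set.Ioi (1 : ℝ), f (T * v) * (v : ℂ) ^ (-1 - w)) =
      (T : ℂ) ^ w * ∫ t in Set.Ioi T, f t * (t : ℂ) ^ (-1 - w) := by
    have e1 : (∫ v in Set.Ioi (1 : ℝ), f (T * v) * (v : ℂ) ^ (-1 - w)) =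
        ∫ v in Set.Ioi (1 : ℝ), (T : ℂ) * (T : ℂ) ^ w *
          (f (T * v) * ((T * v : ℝ) : ℂ) ^ (-1 - w)) := by
      refine setIntegral_congr_fun measurableSet_Ioi fun v hv => ?_
      show _ = (T : ℂ) * (T : ℂ) ^ w * (f (T * v) * ((T * v : ℝ) : ℂ) ^ (-1 - w))
      rw [hk v (lt_trans one_pos hv)]
      ring
    have e2 := integral_comp_mul_left_Ioi (fun t : ℝ => f t * (t : ℂ) ^ (-1 - w)) 1 hT
    rw [e1, integral_const_mul, e2, mul_one, Complex.real_smul, Complex.ofReal_inv]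
    field_simp
  unfold Lw
  rw [h1, h2, ← mul_add, ← mul_assoc, hc, one_mul]

/-- the integral over `(1, ∞)` -/
theorem slc_main (h : SlC T A f f') (hT : 1 ≤ T) (hA : 0 ≤ A) (w : ℂ) (hw0 : w ≠ 0)
    (hw : ‖w‖ ≤ 1 / 16) :
    ∫ t in Set.Ioi (1 : ℝ), (t : ℂ) ^ (-1 - w) * f t =
      (1 - (T : ℂ) ^ (-w)) / w + (T : ℂ) ^ (-w) * Lw w (fun v => f (T * v)) -
        ∫ t in Set.Ioc (0 : ℝ) 1, (f t - 1) * (t : ℂ) ^ (-1 - w) := by
  have hT0 : 0 < T := by linarith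
  have hU : Set.Ioi (1 : ℝ) = Set.Ioc 1 T ∪ Set.Ioi T := (Set.Ioc_union_Ioi_eq_Ioi hT).symm
  have hd : Disjoint (Set.Ioc 1 T) (Set.Ioi T) := by
    rw [Set.disjoint_left]
    intro t h h'
    exact absurd h.2 (not_le.2 h')
  have hV : Set.Ioc (0 : ℝ) T = Set.Ioc 0 1 ∪ Set.Ioc 1 T :=
    (Set.Ioc_union_Ioc_eq_Ioc zero_le_one hT).symm
  have hd' : Disjoint (Set.Ioc (0 : ℝ) 1) (Set.Ioc 1 T) := by
    rw [Set.disjoint_left]
    intro t h h'
    exact absurd h.2 (not_le.2 h'.1)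
  obtain ⟨i1, -⟩ := slc_int h hT0 hA w hw
  obtain ⟨i2, -⟩ := slc_small h hT hA w hw
  obtain ⟨i3, i4⟩ := slc_mid h w
  have e1 : (∫ t in Set.Ioc 1 T, (t : ℂ) ^ (-1 - w) * f t) =
      (∫ t in Set.Ioc 1 T, (f t - 1) * (t : ℂ) ^ (-1 - w)) +
        ∫ t in Set.Ioc 1 T, (t : ℂ) ^ (-1 - w) := by
    rw [← integral_add i3 i4]
    refine setIntegral_congr_fun measurableSet_Ioc fun t _ => ?_
    show (t : ℂ) ^ (-1 - w) * f t = (f t - 1) * (t : ℂ) ^ (-1 - w) + (t : ℂ) ^ (-1 - w)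
    ring
  have e2 : (∫ t in Set.Ioc 1 T, (t : ℂ) ^ (-1 - w)) = (1 - (T : ℂ) ^ (-w)) / w := by
    rw [← intervalIntegral.integral_of_le hT, integral_cpow]
    · have e : (-1 - w + 1 : ℂ) = -w := by ring
      rw [e, Complex.ofReal_one, Complex.one_cpow, div_neg, ← neg_div, neg_sub]
    · right
      constructor
      · intro h0
        apply hw0
        linear_combination -h0
      · rw [Set.uIcc_of_le hT]
        intro h0
        linarith [h0.1]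
  have e3 : (∫ t in Set.Ioi T, (t : ℂ) ^ (-1 - w) * f t) =
      ∫ t in Set.Ioi T, f t * (t : ℂ) ^ (-1 - w) := by
    refine setIntegral_congr_fun measurableSet_Ioi fun t _ => ?_
    exact mul_comm _ _
  rw [slc_Lw T hT0 f w, hV, setIntegral_union hd' measurableSet_Ioc i2 i3, hU,
    setIntegral_union hd measurableSet_Ioi (i1.mono_set Set.Ioc_subset_Ioi_self)
      (i1.mono_set (Set.Ioi_subset_Ioi hT)), e1, e2, e3]
  ring

end SlC

end Pool.Agent.H4.HC
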